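import Pool.Agent.HDSum.Main

/-!
For every summable sequence of positive reals, the achievement set `E` (the set of all subsums)
satisfies `dim_H (E + E) ≤ 2 dim_H E`.
-/

open scoped Pointwise

namespace Pool.Agent.Results.MP_5b30f8_an.SumDim

/-- the set of all subsums of the series with terms `x n` -/
def achievementSet (x : ℕ → ℝ) : Set ℝ :=
  {z | ∃ A : Set ℕ, z = ∑' n, A.indicator x n}

theorem result (x : ℕ → ℝ) (hx : ∀ n, 0 < x n) (hs : Summable x) :
    dimH (achievementSet x + achievementSet x) ≤ 2 * dimH (achievementSet x) := by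
  have h : achievementSet x = Pool.Agent.HDSum.AS x := by
    ext z
    constructor
    · rintro ⟨A, rfl⟩
      exact ⟨A, rfl⟩
    · rintro ⟨A, rfl⟩
      exact ⟨A, rfl⟩
  rw [h]
  exact Pool.Agent.HDSum.dim_sum_le x hx hs

end Pool.Agent.Results.MP_5b30f8_an.SumDim
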